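import Mathlib
import Pool.Agent.H.MP_296aa8_al.Main

set_option autoImplicit false

namespace Pool.Agent.Results.MP_296aa8_al.No

theorem result (m n : ℕ) (hm : 3 ≤ m) (hn : 3 ≤ n) (N : ℕ) (G : Subgroup (GL (Fin N) ℂ))
    (hG : ∃ S : Set (MvPolynomial (Fin N × Fin N) ℂ), ∀ g : GL (Fin N) ℂ, g ∈ G ↔
      ∀ p ∈ S, MvPolynomial.eval (fun ij => (g : Matrix (Fin N) (Fin N) ℂ) ij.1 ij.2) p = 0)
    (ρ : Representation ℂ G (Fin m → Matrix (Fin n) (Fin n) ℂ))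
    (hρ : ∀ X i k l, ∃ p : MvPolynomial (Option (Fin N × Fin N)) ℂ, ∀ g : G,
      ρ g X i k l = MvPolynomial.eval (fun o => o.elim
        ((g : GL (Fin N) ℂ) : Matrix (Fin N) (Fin N) ℂ).det⁻¹
        fun ij => ((g : GL (Fin N) ℂ) : Matrix (Fin N) (Fin N) ℂ) ij.1 ij.2) p) :
    {v : Fin m → Matrix (Fin n) (Fin n) ℂ | 0 ∈ closure (Set.range fun g : G => ρ g v)} ≠
      {X | ∀ c : Fin m → ℂ, (∑ i, c i • X i).det = 0} := by
  obtain ⟨m, rfl⟩ : ∃ k, m = k + 3 := ⟨m - 3, by omega⟩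
  obtain ⟨n, rfl⟩ : ∃ k, n = k + 3 := ⟨n - 3, by omega⟩
  obtain ⟨S, hS⟩ := hG
  intro h
  exact Pool.Agent.H.MP_296aa8_al.main G S hS ρ hρ fun v => Set.ext_iff.1 h v

end Pool.Agent.Results.MP_296aa8_al.No
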